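import Pool.Agent.H56.E.Base
import Pool.Agent.H56.E.H56.G3.TS

/-!
# Board gs3_modules, row SA1: the energy of the top level and of the windows of the stretch
-/

set_option autoImplicit false

namespace Pool.Agent.H56.E.H89.G3

open Pool.Agent.H89.G3

open Finset Pool.Agent.H6.N4D Pool.Agent.H78.GX.H6.N4D Pool.Agent.H93.EB Pool.Agent.H93.GS Pool.Agent.H56.G3 Pool.Agent.H56.E.H56.G3

theorem rl_iter (hRL : T_RL) (th : ℝ) (lam : ℕ → ℝ) (hth : 0 < th) (hth1 : th ≤ 1)
    (hl : B1 lam) (M v : ℕ) (hM : 1 ≤ M) (i : ℕ) :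
    |En th lam 1 (M + i) v - En th lam 1 M v| ≤ i * (20 / th ^ 2 / M) := by
  have hMr : (0 : ℝ) < M := by exact_mod_cast hM
  induction i with
  | zero => simp
  | succ i ih =>
    have h1 := (hRL th lam (M + i) v hth hth1 hl (by omega)).1
    have h2 : 20 / th ^ 2 / ((M + i : ℕ) : ℝ) ≤ 20 / th ^ 2 / M := by
      refine div_le_div_of_nonneg_left (by positivity) hMr ?_
      push_cast
      linarith [(Nat.cast_nonneg i : (0 : ℝ) ≤ i)]
    have h3 : En th lam 1 (M + (i + 1)) v - En th lam 1 M v =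
        (En th lam 1 (M + i + 1) v - En th lam 1 (M + i) v) +
          (En th lam 1 (M + i) v - En th lam 1 M v) := by
      rw [← add_assoc]
      ring
    rw [h3]
    refine (abs_add_le _ _).trans ?_
    push_cast
    linarith

theorem pf_SA1 (hRB : T_RB) (hRN : T_RN) (hRL : T_RL) (hSF : T_SF) (hSC : T_SC)
    (hSN : T_SN) : T_SA1 := by
  intro th hth hth1 ε K r hε hK
  obtain ⟨A, hA⟩ : ∃ A : ℝ, A = max (max 12 (12 / ε)) ((32 + 80 / th ^ 2) / ε) := ⟨_, rfl⟩
  have hA12 : 12 ≤ A := by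
    rw [hA]
    exact (le_max_left _ _).trans (le_max_left _ _)
  have hAe : 12 / ε ≤ A := by
    rw [hA]
    exact (le_max_right _ _).trans (le_max_left _ _)
  have hAt : (32 + 80 / th ^ 2) / ε ≤ A := by
    rw [hA]
    exact le_max_right _ _
  have hA0 : 0 < A := by linarith
  obtain ⟨X₁, hX₁⟩ := hSN K r A hK
  refine ⟨X₁, ?_⟩
  intro S lam k₁ w hS hX hl hw
  obtain ⟨hL, hNh, hrk, hr100, -, hI, -, -⟩ := hX₁ S k₁ hS hX
  have hOk := hS.ok
  have hh := hOk.hh
  have hrho := hOk.hr0
  have hNpos : 0 < S.N := by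
    by_contra hcon
    have : S.N * S.h ≤ 0 := mul_nonpos_of_nonpos_of_nonneg (not_lt.1 hcon) hh.le
    linarith
  have hab : S.a < S.b := by
    unfold Par.N at hNpos
    have : (S.a : ℝ) < S.b := by linarith
    exact_mod_cast this
  have haI : S.a ∈ S.I := Par.mem_I.2 ⟨le_rfl, hab⟩
  obtain ⟨hA1, -, -, -, hA5, hA6, -⟩ := hI S.a haI
  set H : ℕ := 2 ^ k₁ with hH
  set na : ℕ := S.n S.a with hna
  set nb : ℕ := S.n S.b with hnb
  have hHr : (H : ℝ) = 2 ^ k₁ := by
    rw [hH]
    push_cast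
    rfl
  have hH1 : 1 ≤ H := Nat.one_le_two_pow
  have hHpos : (0 : ℝ) < H := by exact_mod_cast hH1
  have hHna' : A * H ≤ na := by
    rw [hHr]
    exact hA5
  have hHna : H ≤ na := by
    have : (H : ℝ) ≤ na := (le_mul_of_one_le_left hHpos.le (by linarith)).trans hHna'
    exact_mod_cast this
  have hAna : A ≤ na := by
    have : (1 : ℝ) ≤ H := by exact_mod_cast hH1
    exact (le_mul_of_one_le_right hA0.le this).trans hHna'
  have hnapos : (0 : ℝ) < na := by linarith
  have hnaxa : (na : ℝ) ≤ S.x S.a := Nat.floor_le (Par.x_pos _).le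
  have hxa : A ≤ S.x S.a := hAna.trans hnaxa
  have hnab : na ≤ nb := Nat.floor_mono (Par.x_mono hh hab.le)
  have hmono : ∀ t ∈ S.I, na ≤ S.n t := fun t ht =>
    Nat.floor_mono (Par.x_mono hh (Par.mem_I.1 ht).1)
  have hX1 : A ≤ S.X := hAna.trans hA6
  have hhX : S.h * S.X ≤ 1 / A := by
    have hXpos : 0 < S.X := by linarith
    have h1 : S.h * S.X * S.X ^ 4 ≤ 1 := by
      have := hOk.hX5
      calc S.h * S.X * S.X ^ 4 = S.h * S.X ^ 5 := by ring
        _ ≤ 1 := this
    have h2 : A ≤ S.X ^ 4 := by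
      have h3 : (1 : ℝ) ≤ S.X ^ 3 := one_le_pow₀ (by linarith)
      calc A ≤ S.X := hX1
        _ = S.X * 1 := (mul_one _).symm
        _ ≤ S.X * S.X ^ 3 := mul_le_mul_of_nonneg_left h3 hXpos.le
        _ = S.X ^ 4 := by ring
    rw [le_div_iff₀ hA0]
    refine le_trans ?_ h1
    exact mul_le_mul_of_nonneg_left h2 (by positivity)
  have hcard : ∑ _t ∈ S.I, (1 : ℝ) = S.N := by
    rw [Finset.sum_const, nsmul_eq_mul, mul_one]
    exact Par.card_I hNpos.le
  have hNh1 : 1 ≤ S.N * S.h := by linarith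
  -- the sum of the weights
  have hone : sS S (fun _ => 1) ≤ S.N * S.h + 12 / A := by
    have h1 := hSC S (fun _ => 1) hOk (by linarith) (by linarith) (fun n => by simp)
    rw [hcard] at h1
    have h2 := (abs_le.1 h1).1
    have h3 : 8 / S.x S.a ≤ 8 / A := div_le_div_of_nonneg_left (by norm_num) hA0 hxa
    have h4 : 4 * S.h * S.X ≤ 4 / A := by
      calc 4 * S.h * S.X = 4 * (S.h * S.X) := by ring
        _ ≤ 4 * (1 / A) := mul_le_mul_of_nonneg_left hhX (by norm_num)
        _ = 4 / A := by ring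
    have h5 : 12 / A = 8 / A + 4 / A := by ring
    linarith
  have h12 : 12 / A ≤ 1 := by
    rw [div_le_one hA0]
    exact hA12
  have h12e : 12 / A ≤ ε := by
    rw [div_le_iff₀ hA0]
    rw [div_le_iff₀ hε] at hAe
    linarith
  have hone2 : sS S (fun _ => 1) ≤ 2 * (S.N * S.h) := by linarith
  have hone0 : 0 ≤ sS S (fun _ => 1) := by
    unfold sS
    exact Finset.sum_nonneg fun n _ => by positivity
  refine ⟨?_, ?_⟩
  swap
  · have h1 : 12 / A ≤ ε * (S.N * S.h) := h12e.trans (le_mul_of_one_le_right hε.le hNh1)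
    linarith
  -- the function of the windows
  obtain ⟨Nn, hNn⟩ : ∃ Nn : ℕ → ℕ, Nn = fun n : ℕ => ⌊S.rho * (n : ℝ)⌋₊ :=
    ⟨_, rfl⟩
  obtain ⟨G, hG⟩ : ∃ G : ℕ → ℝ, G = fun v => En th lam 1 (w * Nn v) v := ⟨_, rfl⟩
  have hw1 : 1 ≤ w := by omega
  have hw2 : w ≤ 2 := by omega
  have hNge : ∀ n, na ≤ n → A ≤ Nn n := by
    intro n hn
    have h1 : Nn na ≤ Nn n := by
      rw [hNn]
      refine Nat.floor_mono (mul_le_mul_of_nonneg_left ?_ hrho.le)
      exact_mod_cast hn
    have h2 : A ≤ Nn na := by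
      rw [hNn]
      exact hA1
    have h3 : (Nn na : ℝ) ≤ Nn n := by exact_mod_cast h1
    linarith
  have hNge1 : ∀ n, na ≤ n → 1 ≤ Nn n := by
    intro n hn
    have h1 := hNge n hn
    have h2 : (1 : ℝ) ≤ Nn n := by linarith
    exact_mod_cast h2
  have hG02 : ∀ n, na ≤ n → 0 ≤ G n ∧ G n ≤ 2 := by
    intro n hn
    have h1 : 1 ≤ w * Nn n := Nat.mul_pos hw1 (hNge1 n hn)
    obtain ⟨-, h2, h3, -⟩ := hRB th lam 1 (w * Nn n) n hth hl le_rfl h1
    rw [hG]
    refine ⟨h2, h3.trans ?_⟩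
    have h4 : ((1 : ℕ) : ℝ) / ((w * Nn n : ℕ) : ℝ) ≤ 1 := by
      rw [div_le_one (by exact_mod_cast h1)]
      exact_mod_cast h1
    linarith
  obtain ⟨F, hF⟩ : ∃ F : ℕ → ℝ, F = fun v => if na ≤ v then G v / 2 else 0 := ⟨_, rfl⟩
  have hF1 : ∀ n, |F n| ≤ 1 := by
    intro n
    rw [hF]
    by_cases hn : na ≤ n
    · simp only [if_pos hn]
      obtain ⟨h1, h2⟩ := hG02 n hn
      rw [abs_of_nonneg (by positivity)]
      linarith
    · simp only [if_neg hn, abs_zero]
      exact zero_le_one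
  have hFG : ∀ n, na ≤ n → F n = G n / 2 := by
    intro n hn
    rw [hF]
    simp only [if_pos hn]
  -- one window of the top level
  set c0 : ℝ := 40 / th ^ 2 / A with hc0
  set c1 : ℝ := 4 / th ^ 2 * (1 / 2) ^ r with hc1
  have hc00 : 0 ≤ c0 := by positivity
  have hc10 : 0 ≤ c1 := by positivity
  have hwin : ∀ n ∈ Ico na nb, En th lam 1 H n ≤ sl H n G + (c0 + c1) := by
    intro n hn
    rw [Finset.mem_Ico] at hn
    have hn1 := hn.1
    have hM : 1 ≤ w * Nn n := Nat.mul_pos hw1 (hNge1 n hn1)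
    have h1 := hRN th lam (w * Nn n) H n hth hth1 hl hM hH1
    have h2 : 16 / th ^ 2 * (((w * Nn n : ℕ) : ℝ) / H) ≤ c1 := by
      have h3 : (Nn n : ℝ) ≤ S.rho * n := by
        rw [hNn]
        exact Nat.floor_le (by positivity)
      have h4 : (n : ℝ) ≤ S.x S.b := by
        have h5 : (n : ℝ) ≤ nb := by exact_mod_cast hn.2.le
        exact h5.trans (Nat.floor_le (Par.x_pos _).le)
      have h6 : S.rho * n ≤ 2 ^ (k₁ - r) / 8 := by
        have h7 := mul_le_mul_of_nonneg_left h4 hrho.le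
        have h8 := hS.rh
        linarith
      have h9 : (2 : ℝ) ^ (k₁ - r) * 2 ^ r = H := by
        rw [hHr, ← pow_add, Nat.sub_add_cancel hS.rk]
      have h10 : ((w * Nn n : ℕ) : ℝ) ≤ 2 ^ (k₁ - r) / 4 := by
        push_cast
        have h11 : (w : ℝ) ≤ 2 := by exact_mod_cast hw2
        have h12 : (0 : ℝ) ≤ Nn n := Nat.cast_nonneg _
        have h13 : (w : ℝ) * Nn n ≤ 2 * Nn n := mul_le_mul_of_nonneg_right h11 h12
        linarith
      have h14 : ((w * Nn n : ℕ) : ℝ) / H ≤ 1 / 4 * (1 / 2) ^ r := by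
        rw [div_le_iff₀ hHpos, ← h9]
        have h15 : (1 / 4 * (1 / 2) ^ r) * ((2 : ℝ) ^ (k₁ - r) * 2 ^ r) =
            2 ^ (k₁ - r) / 4 * ((1 / 2) ^ r * 2 ^ r) := by ring
        have h16 : ((1 : ℝ) / 2) ^ r * 2 ^ r = 1 := by
          rw [← mul_pow]
          norm_num
        rw [h15, h16, mul_one]
        exact h10
      calc 16 / th ^ 2 * (((w * Nn n : ℕ) : ℝ) / H) ≤ 16 / th ^ 2 * (1 / 4 * (1 / 2) ^ r) :=
            mul_le_mul_of_nonneg_left h14 (by positivity)
        _ = c1 := by rw [hc1]; ring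
    have h3 : sl H n (En th lam 1 (w * Nn n)) ≤ sl H n G + c0 := by
      unfold sl
      rw [div_add' _ _ _ hHpos.ne']
      refine div_le_div_of_nonneg_right ?_ hHpos.le
      have h4 : ∑ j ∈ range H, En th lam 1 (w * Nn n) (n + j) ≤
          ∑ j ∈ range H, (G (n + j) + c0) := by
        refine Finset.sum_le_sum fun j hj => ?_
        have hj' := Finset.mem_range.1 hj
        have hle : Nn n ≤ Nn (n + j) := by
          rw [hNn]
          refine Nat.floor_mono (mul_le_mul_of_nonneg_left ?_ hrho.le)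
          push_cast
          linarith [(Nat.cast_nonneg j : (0 : ℝ) ≤ j)]
        have hub : Nn (n + j) ≤ Nn n + 1 := by
          have h5 : (Nn (n + j) : ℝ) ≤ S.rho * (n + j : ℕ) := by
            rw [hNn]
            exact Nat.floor_le (by positivity)
          have h6 : S.rho * n < Nn n + 1 := by
            rw [hNn]
            exact Nat.lt_floor_add_one _
          have h7 : S.rho * j ≤ 1 / 4 := by
            have h8 : (j : ℝ) ≤ H := by exact_mod_cast hj'.le
            have h9 := mul_le_mul_of_nonneg_left h8 hrho.le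
            rw [hHr] at h9
            linarith
          have h10 : (Nn (n + j) : ℝ) < Nn n + 2 := by
            push_cast at h5
            linarith
          have h11 : Nn (n + j) < Nn n + 2 := by exact_mod_cast h10
          omega
        obtain ⟨i, hi⟩ : ∃ i, w * Nn (n + j) = w * Nn n + i :=
          ⟨w * Nn (n + j) - w * Nn n, by
            have := Nat.mul_le_mul_left w hle
            omega⟩
        have hi2 : i ≤ 2 := by
          have h5 := Nat.mul_le_mul_left w hub
          rw [Nat.mul_add, mul_one] at h5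
          omega
        have h5 := rl_iter hRL th lam hth hth1 hl (w * Nn n) (n + j) hM i
        rw [← hi] at h5
        have h6 : (i : ℝ) * (20 / th ^ 2 / ((w * Nn n : ℕ) : ℝ)) ≤ c0 := by
          have h7 : (i : ℝ) ≤ 2 := by exact_mod_cast hi2
          have h8 : A ≤ ((w * Nn n : ℕ) : ℝ) := by
            have h9 := hNge n hn1
            have h10 : Nn n ≤ w * Nn n := Nat.le_mul_of_pos_left _ (by omega)
            have h11 : (Nn n : ℝ) ≤ ((w * Nn n : ℕ) : ℝ) := by exact_mod_cast h10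
            linarith
          calc (i : ℝ) * (20 / th ^ 2 / ((w * Nn n : ℕ) : ℝ))
              ≤ 2 * (20 / th ^ 2 / A) :=
                mul_le_mul h7 (div_le_div_of_nonneg_left (by positivity) hA0 h8)
                  (by positivity) (by norm_num)
            _ = c0 := by rw [hc0]; ring
        have h7 := (abs_le.1 (h5.trans h6)).1
        have h8 : G (n + j) = En th lam 1 (w * Nn (n + j)) (n + j) := by rw [hG]
        rw [h8]
        linarith
      refine h4.trans (le_of_eq ?_)
      rw [Finset.sum_add_distrib, Finset.sum_const, card_range, nsmul_eq_mul, mul_comm c0]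
    linarith
  -- the sum over the stretch
  have hsum : sS S (En th lam 1 H) ≤ ∑ n ∈ Ico na nb, sl H n G / n +
      (c0 + c1) * sS S (fun _ => 1) := by
    unfold sS
    rw [Finset.mul_sum, ← Finset.sum_add_distrib]
    refine Finset.sum_le_sum fun n hn => ?_
    have h1 := hwin n hn
    have h2 : (0 : ℝ) < n := by
      have h3 : (na : ℝ) ≤ n := by exact_mod_cast (Finset.mem_Ico.1 hn).1
      linarith
    rw [mul_one_div, ← add_div]
    exact div_le_div_of_nonneg_right h1 h2.le
  -- sliding windows of fixed length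
  have hslide : ∑ n ∈ Ico na nb, sl H n G / n ≤ sS S G + 8 / A := by
    have h1 := hSF F H na nb hF1 hH1 hHna hnab
    have h2 : ∑ n ∈ Ico na nb, sl H n F / n = (∑ n ∈ Ico na nb, sl H n G / n) / 2 := by
      rw [Finset.sum_div]
      refine Finset.sum_congr rfl fun n hn => ?_
      have h3 : sl H n F = sl H n G / 2 := by
        unfold sl
        have h4 : ∑ j ∈ range H, F (n + j) = (∑ j ∈ range H, G (n + j)) / 2 := by
          rw [Finset.sum_div]
          refine Finset.sum_congr rfl fun j _ => hFG _ ?_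
          have := (Finset.mem_Ico.1 hn).1
          omega
        rw [h4]
        ring
      rw [h3]
      ring
    have h3 : ∑ n ∈ Ico na nb, F n / n = sS S G / 2 := by
      unfold sS
      rw [Finset.sum_div]
      refine Finset.sum_congr rfl fun n hn => ?_
      rw [hFG n (Finset.mem_Ico.1 hn).1]
      ring
    rw [h2, h3] at h1
    have h4 := (abs_le.1 h1).2
    have h5 : 4 * (H : ℝ) / na ≤ 4 / A := by
      rw [div_le_div_iff₀ hnapos hA0]
      linarith
    have h6 : 8 / A = 2 * (4 / A) := by ring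
    linarith
  -- to the logarithmic scale
  have hlog : sS S G ≤ S.h * ∑ t ∈ S.I, En th lam 1 (w * Nt S t) (S.n t) + 24 / A := by
    have h1 := hSC S F hOk (by linarith) (by linarith) hF1
    have h2 : sS S F = sS S G / 2 := by
      unfold sS
      rw [Finset.sum_div]
      refine Finset.sum_congr rfl fun n hn => ?_
      rw [hFG n (Finset.mem_Ico.1 hn).1]
      ring
    have h3 : ∑ t ∈ S.I, F (S.n t) = (∑ t ∈ S.I, En th lam 1 (w * Nt S t) (S.n t)) / 2 := by
      rw [Finset.sum_div]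
      refine Finset.sum_congr rfl fun t ht => ?_
      rw [hFG _ (hmono t ht), hG, hNn]
      rfl
    rw [h2, h3] at h1
    have h4 := (abs_le.1 h1).1
    have h5 : 8 / S.x S.a ≤ 8 / A := div_le_div_of_nonneg_left (by norm_num) hA0 hxa
    have h6 : 4 * S.h * S.X ≤ 4 / A := by
      calc 4 * S.h * S.X = 4 * (S.h * S.X) := by ring
        _ ≤ 4 * (1 / A) := mul_le_mul_of_nonneg_left hhX (by norm_num)
        _ = 4 / A := by ring
    have h7 : 24 / A = 2 * (8 / A) + 2 * (4 / A) := by ring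
    linarith
  have hall : (c0 + c1) * sS S (fun _ => 1) ≤ (c0 + c1) * (2 * (S.N * S.h)) :=
    mul_le_mul_of_nonneg_left hone2 (by positivity)
  have hc1' : c1 * (2 * (S.N * S.h)) = 8 / th ^ 2 * (1 / 2) ^ r * (S.N * S.h) := by
    rw [hc1]
    ring
  have hc0' : 32 / A + c0 * (2 * (S.N * S.h)) ≤ ε * (S.N * S.h) := by
    have h1 : 32 / A ≤ 32 / A * (S.N * S.h) :=
      le_mul_of_one_le_right (by positivity) hNh1
    have h2 : c0 * (2 * (S.N * S.h)) = 80 / th ^ 2 / A * (S.N * S.h) := by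
      rw [hc0]
      ring
    have h3 : 32 / A + 80 / th ^ 2 / A ≤ ε := by
      rw [← add_div, div_le_iff₀ hA0]
      rw [div_le_iff₀ hε] at hAt
      linarith
    have h4 := mul_le_mul_of_nonneg_right h3 (by linarith : 0 ≤ S.N * S.h)
    rw [h2]
    linarith
  have h32 : 32 / A = 8 / A + 24 / A := by ring
  have hexp : (c0 + c1) * (2 * (S.N * S.h)) = c0 * (2 * (S.N * S.h)) +
      c1 * (2 * (S.N * S.h)) := by ring
  have hexp2 : (8 / th ^ 2 * (1 / 2) ^ r + ε) * (S.N * S.h) =
      8 / th ^ 2 * (1 / 2) ^ r * (S.N * S.h) + ε * (S.N * S.h) := by ring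
  rw [hexp2]
  linarith

end Pool.Agent.H56.E.H89.G3
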